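import Pool.Agent.Helper73.HV.Defs
import Pool.Agent.Helper73.HU.St

/-! # HV: the statements of the modules -/

namespace Pool.Agent.Helper73.HV

open Ordinal Cardinal ZFSet Order Pool.Agent.Helper73.HODC Pool.Agent.Helper73.HE
open Pool.Agent.Helper73.HM Pool.Agent.Helper73.HU

/-- EXG: cofinal subsets of a limit ordinal `a` in HOD, of order type the cofinality `γ` of `a`
in HOD -/
def StEXG : Prop := ∀ τ a : Ordinal.{0}, IsSuccLimit a → a < τ →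
  ∃ γ ≤ a, HODReg γ ∧ γ.cof = a.cof ∧
    ∃ x, OD x ∧ x ⊆ τ.toZFSet ∧ SmallCof (γ + 1) a x

/-- CP: the canonical cofinal subsets of order type at most `μ`, with positions -/
def StCP : Prop := ∀ μ τ : Ordinal.{0}, HODNext μ τ →
  ∃ C, Pos μ {a | IsSuccLimit a ∧ a < τ} C

/-- PB: functions to an ordinal of another cofinality are bounded on a stationary set -/
def StPB : Prop := ∀ (τ μ : Ordinal.{0}) (S : Set Ordinal.{0}) (g : Ordinal.{0} → Ordinal.{0}),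
  ℵ₀ < τ.cof → IsSuccLimit μ → μ.cof ≠ τ.cof → Stat S τ → (∀ a ∈ S, a < τ → g a < μ) →
    ∃ γ < μ, Stat {a | a ∈ S ∧ g a ≤ γ} τ

/-- CU -/
def StCU : Prop := ∀ (τ lam : Ordinal.{0}) (f : Ordinal.{0} → Ordinal.{0}), ℵ₀ < τ.cof →
  IsSuccLimit lam → (∀ a, f a < lam) → (∀ i < lam, Stat {a | i ≤ f a} τ) → lam.cof ≤ τ.cof

/-- PS: small intervals and small positions on a stationary set -/
def StPS : Prop := ∀ (τ μ : Ordinal.{0}) (S : Set Ordinal.{0})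
  (C : Ordinal.{0} → Ordinal.{0} → Ordinal.{0} → Prop), ℵ₀ < τ.cof → IsSuccLimit μ →
    μ.cof ≠ τ.cof → Stat S τ → Pos μ S C →
    ∀ ξ < τ, ∃ η < τ, ∃ γ < μ, Stat {a | a ∈ S ∧ ∃ b, C a γ b ∧ ξ ≤ b ∧ b ≤ η} τ

/-- KEY: a long definable sequence of disjoint intervals with one bound `γ` -/
def StKEY : Prop := ∀ (τ μ : Ordinal.{0})
  (P : Ordinal.{0} → Ordinal.{0} → Ordinal.{0} → Prop), HODReg τ → ℵ₀ < τ.cof → μ < τ →
    DP (fun v => P (v 0).rank (v 1).rank (v 2).rank) →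
    (∀ ξ ξ' η η' γ γ', ξ' ≤ ξ → η ≤ η' → γ ≤ γ' → P ξ η γ → P ξ' η' γ') →
    (∀ ξ < τ, ∃ η < τ, ∃ γ < μ, P ξ η γ) →
    ∃ γ < μ, ∃ e : Ordinal.{0} → Ordinal.{0}, DP (fun v => e (v 0).rank = (v 1).rank) ∧
      ∀ i < τ, e i < τ ∧ ∃ η < τ, P (e i) η γ ∧ ∀ j, i < j → j < τ → η < e j

/-- JB: a set of small order type meets few intervals -/
def StJB : Prop := ∀ (lam γ : Ordinal.{0}) (e : Ordinal.{0} → Ordinal.{0})
  (K : Set Ordinal.{0}), HODReg lam → γ < lam → DP (fun v => e (v 0).rank = (v 1).rank) →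
    (∀ i j, i < j → j ≤ lam → e i < e j) → DPs K → OtpLt K (γ + 2) →
    ∃ s < lam, ∀ i < lam, (∃ b ∈ K, e i ≤ b ∧ b < e (i + 1)) → i ≤ s

/-- M: the cofinality of a successor cardinal of HOD -/
def StM : Prop := ∀ μ τ : Ordinal.{0}, HODNext μ τ → IsSuccLimit μ → ℵ₀ < τ.cof →
  μ.cof ≠ τ.cof → ∃ γ < μ, ∀ lam, HODReg lam → γ < lam → lam ≤ μ → lam.cof ≤ τ.cof

/-- MA: the same for atoms -/
def StMA : Prop := ∀ (μ τ : Ordinal.{0}) (A : Set Ordinal.{0}), HODNext μ τ →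
  IsSuccLimit μ → ℵ₀ < τ.cof → μ.cof ≠ τ.cof → DPs A → (∀ a ∈ A, IsSuccLimit a ∧ a < τ) →
    Atom τ A → ∃ γ < μ, ∀ lam, HODReg lam → γ < lam → lam ≤ μ → lam.cof = τ.cof

/-- RX: the covering relation -/
def StRX : Prop := ∀ (δ τ : Ordinal.{0}) (A : Set Ordinal.{0})
  (C : Ordinal.{0} → Ordinal.{0} → Prop), ℵ₀ < τ.cof → HODReg τ →
    DPs A → (∀ a ∈ A, a < τ) → Atom τ A →
    DP (fun v => C (v 0).rank (v 1).rank) → (∀ a ∈ A, ∀ β < a, ∃ b, C a b ∧ β ≤ b ∧ b < a) →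
    (∀ a ∈ A, OtpLt {b | C a b} δ) →
    ∃ R : Ordinal.{0} → Ordinal.{0} → Prop, DP (fun v => R (v 0).rank (v 1).rank) ∧
      (∀ a ∈ A, OtpLt {i | i < τ ∧ R a i} δ) ∧ ∀ i < τ, ¬ Stat {a | a ∈ A ∧ ¬ R a i} τ

/-- FN: the image ultrafilter is fine -/
def StFN : Prop := ∀ (δ τ : Ordinal.{0}) (ρ : Cardinal.{0}) (U : ZFSet.{0})
  (R : Ordinal.{0} → Ordinal.{0} → Prop), HODUnif τ ρ U → ℵ₀ ≤ ρ →
    DP (fun v => R (v 0).rank (v 1).rank) →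
    (∃ X ∈ U, ∀ a ∈ st X, OtpLt {i | i < τ ∧ R a i} δ) → (∀ i < τ, ordSet τ {a | R a i} ∈ U) →
    ∃ W, HODFine ρ δ τ W

/-- NU: the ordinals of cofinality `ν` -/
def StNU : Prop := ∀ ν : Cardinal.{0}, ν.IsRegular → DPs {a | a.cof = ν} ∧
  ∀ τ : Ordinal.{0}, ν < τ.cof → Stat {a | a.cof = ν} τ

/-- the conclusion of the theorem for one cardinal `θ` -/
def Concl (κ θ : Cardinal.{0}) : Prop := ∀ μ τ : Ordinal.{0},
  (HODReg μ ∨ ∃ σ : Cardinal.{0}, ℵ₀ ≤ σ ∧ μ = σ.ord) → HODNext μ τ →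
    τ.cof = ℵ₀ ∨ (μ.cof ≤ τ.cof ∧ τ.cof ≤ θ) ∨
    (θ < τ.cof ∧ τ.cof = μ.cof ∧ ∀ ν : Cardinal.{0}, ν.IsRegular → ν < κ → ∀ δ ≤ μ,
      (∀ ζ, δ ≤ ζ → ζ ≤ μ → HODReg ζ → ζ.cof ≠ ν) → ∃ W, HODFine μ.cof δ τ W)

/-- local form -/
def StLocal : Prop := ∀ (κ κ₀ : Cardinal.{0}), StronglyCompact κ → κ ≤ κ₀ →
  (∃ α : Ordinal.{0}, IsSuccLimit α ∧ κ.ord ≤ α ∧ α ≤ κ₀.ord ∧ α.cof < κ ∧ ¬ HODSing α) →
    Concl κ ((2 : Cardinal.{0}) ^ κ₀)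

/-- the theorem -/
def StMain : Prop := ∀ κ : Cardinal.{0}, StronglyCompact κ → ¬ HODHypothesis →
  ∃ θ : Cardinal.{0}, Concl κ θ

end Pool.Agent.Helper73.HV
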