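import Pool.Agent.Helper73.HV.St

/-! # HV modules M, MA: the cofinality of a successor cardinal of HOD -/

namespace Pool.Agent.Helper73.HV

open Ordinal Cardinal ZFSet Order Pool.Agent.Helper73.HODC Pool.Agent.Helper73.HE
open Pool.Agent.Helper73.HM Pool.Agent.Helper73.HU

/-- definability of the property that some `b` of position at most `γ` lies in the interval -/
theorem dp_interval {C : Ordinal.{0} → Ordinal.{0} → Ordinal.{0} → Prop}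
    (hC : DP (fun v => C (v 0).rank (v 1).rank (v 2).rank)) (i j k l : ℕ) :
    DP (fun v => ∃ b, C (v i).rank (v j).rank b ∧ (v k).rank ≤ b ∧ b ≤ (v l).rank) := by
  refine DP.exO (Q := fun b v => C (v i).rank (v j).rank b ∧ (v k).rank ≤ b ∧
    b ≤ (v l).rank) ?_
  exact (hC.rename (fun n => if n = 0 then i + 1 else if n = 1 then j + 1 else 0)).and
    ((DP.rank_le (k + 1) 0).and (DP.rank_le 0 (l + 1)))

/-- definability, stationary set version -/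
theorem dp_P {X : Set Ordinal.{0}} (hX : DPs X)
    {C : Ordinal.{0} → Ordinal.{0} → Ordinal.{0} → Prop}
    (hC : DP (fun v => C (v 0).rank (v 1).rank (v 2).rank)) (τ : Ordinal.{0}) :
    DP (fun v => Stat {a | a ∈ X ∧ ∃ b, C a (v 2).rank b ∧ (v 0).rank ≤ b ∧
      b ≤ (v 1).rank} τ) := by
  have h4 : DP (fun v => (v 0).rank ∈ X ∧ ∃ b, C (v 0).rank (v 4).rank b ∧ (v 2).rank ≤ b ∧
      b ≤ (v 3).rank) := (DPs.at hX 0).and (dp_interval hC 0 4 2 3)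
  have h5 : DP (fun v => Stat {a | a ∈ X ∧ ∃ b, C a (v 3).rank b ∧ (v 1).rank ≤ b ∧
      b ≤ (v 2).rank} (v 0).rank) :=
    DP.statV (Q := fun a v => a ∈ X ∧ ∃ b, C a (v 3).rank b ∧ (v 1).rank ≤ b ∧
      b ≤ (v 2).rank) h4 0
  exact dp_subst_at (Q := fun x v => Stat {a | a ∈ X ∧ ∃ b, C a (v 2).rank b ∧
    (v 0).rank ≤ b ∧ b ≤ (v 1).rank} x) h5 τ

/-- definability, atom version -/
theorem dp_P' {X : Set Ordinal.{0}} (hX : DPs X)
    {C : Ordinal.{0} → Ordinal.{0} → Ordinal.{0} → Prop}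
    (hC : DP (fun v => C (v 0).rank (v 1).rank (v 2).rank)) (τ : Ordinal.{0}) :
    DP (fun v => ¬ Stat {a | a ∈ X ∧ ¬ ∃ b, C a (v 2).rank b ∧ (v 0).rank ≤ b ∧
      b ≤ (v 1).rank} τ) := by
  have h4 : DP (fun v => (v 0).rank ∈ X ∧ ¬ ∃ b, C (v 0).rank (v 4).rank b ∧
      (v 2).rank ≤ b ∧ b ≤ (v 3).rank) := (DPs.at hX 0).and (dp_interval hC 0 4 2 3).not
  have h5 : DP (fun v => Stat {a | a ∈ X ∧ ¬ ∃ b, C a (v 3).rank b ∧ (v 1).rank ≤ b ∧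
      b ≤ (v 2).rank} (v 0).rank) :=
    DP.statV (Q := fun a v => a ∈ X ∧ ¬ ∃ b, C a (v 3).rank b ∧ (v 1).rank ≤ b ∧
      b ≤ (v 2).rank) h4 0
  exact (dp_subst_at (Q := fun x v => Stat {a | a ∈ X ∧ ¬ ∃ b, C a (v 2).rank b ∧
    (v 0).rank ≤ b ∧ b ≤ (v 1).rank} x) h5 τ).not

theorem dps_lim (τ : Ordinal.{0}) : DPs {a | IsSuccLimit a ∧ a < τ} := by
  refine DP.and ?_ (DP.rank_lt_ord 0 τ)
  exact (DP.of (dn_dfn_lim 0)).congr fun v => dn_lim_iff.symm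

/-- `e` is increasing below `τ` -/
theorem e_lt {τ γ : Ordinal.{0}} {P : Ordinal.{0} → Ordinal.{0} → Ordinal.{0} → Prop}
    {e : Ordinal.{0} → Ordinal.{0}} (hP : ∀ ξ η, P ξ η γ → ξ ≤ η)
    (he : ∀ i < τ, e i < τ ∧ ∃ η < τ, P (e i) η γ ∧ ∀ j, i < j → j < τ → η < e j)
    {i j : Ordinal.{0}} (hij : i < j) (hj : j < τ) : e i < e j := by
  obtain ⟨-, η, -, h1, h2⟩ := he i (hij.trans hj)
  exact (hP _ _ h1).trans_lt (h2 j hij hj)

theorem not_stat_empty {τ : Ordinal.{0}} (hτ : ℵ₀ < τ.cof) {S : Set Ordinal.{0}}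
    (h : ∀ a ∈ S, ¬ a < τ) : ¬ Stat S τ := by
  intro hS
  obtain ⟨a, h1, -, h2⟩ := hS _ (club_univ (isSuccLimit_of_cof hτ))
  exact h a h1 h2

theorem mthm (h1 : StCP) (h2 : StPS) (h3 : StKEY) (h4 : StJB) (h5 : StCU) : StM := by
  intro μ τ hn hμ hτ hne
  obtain ⟨C, hC⟩ := h1 μ τ hn
  have hlim : IsSuccLimit τ := isSuccLimit_of_cof hτ
  set X : Set Ordinal.{0} := {a | IsSuccLimit a ∧ a < τ} with hX
  have hXs : Stat X τ := by
    intro D hD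
    obtain ⟨a, -, ha, ha'⟩ := (show Stat Set.univ τ from fun D' hD' => by
      obtain ⟨b, hb, -, hb'⟩ := hD'.1 0 (pos_of_cof hτ)
      exact ⟨b, trivial, hb, hb'⟩) _ ((club_limit hτ).inter hτ hD)
    exact ⟨a, ⟨ha.1, ha'⟩, ha.2, ha'⟩
  let P : Ordinal.{0} → Ordinal.{0} → Ordinal.{0} → Prop := fun ξ η γ =>
    Stat {a | a ∈ X ∧ ∃ b, C a γ b ∧ ξ ≤ b ∧ b ≤ η} τ
  have hP : ∀ ξ η γ, P ξ η γ → ξ ≤ η := by
    intro ξ η γ h
    obtain ⟨a, ⟨-, b, -, h6, h7⟩, -, -⟩ := h _ (club_univ hlim)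
    exact h6.trans h7
  obtain ⟨γ, hγ, e, hed, he⟩ := h3 τ μ P hn.2.1 hτ hn.1 (dp_P (dps_lim τ) hC.dp τ)
    (fun ξ ξ' η η' γ γ' h6 h7 h8 h9 => h9.mono fun a ha _ => ⟨ha.1, by
      obtain ⟨b, hb1, hb2, hb3⟩ := ha.2
      exact ⟨b, hC.mono a _ _ b h8 hb1, h6.trans hb2, hb3.trans h7⟩⟩)
    (fun ξ hξ => h2 τ μ X C hτ hμ hne hXs hC ξ hξ)
  refine ⟨γ, hγ, fun lam hlam hγl hlμ => ?_⟩
  have hlτ : lam < τ := hlμ.trans_lt hn.1
  have hinc : ∀ i j, i < j → j ≤ lam → e i < e j := fun i j hij hj =>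
    e_lt (P := P) (γ := γ) (fun ξ η => hP ξ η γ) he hij (hj.trans_lt hlτ)
  -- the bound on the set of intervals which are met
  have hf : ∀ a, ∃ s < lam, a ∈ X → ∀ i < lam, (∃ b, C a γ b ∧ e i ≤ b ∧ b < e (i + 1)) →
      i ≤ s := by
    intro a
    by_cases ha : a ∈ X
    · have hK : DPs {b | C a γ b} := by
        have h6 : DP (fun v => C (v 0).rank γ (v 1).rank) :=
          dp_subst_at (Q := fun x v => C (v 0).rank x (v 1).rank)
            (hC.dp.rename (fun n => if n = 0 then 1 else if n = 1 then 0 else 2)) γ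
        exact dp_subst_at (Q := fun x v => C x γ (v 0).rank) h6 a
      obtain ⟨s, hs, hs'⟩ := h4 lam γ e {b | C a γ b} hlam hγl hed hinc hK (hC.otp a ha γ hγ)
      exact ⟨s, hs, fun _ => hs'⟩
    · exact ⟨0, pos_iff_ne_zero.2 (Ordinal.isSuccLimit_iff.1 hlam.1).1,
        fun h => absurd h ha⟩
  choose f hf1 hf2 using hf
  refine h5 τ lam f hτ hlam.1 hf1 fun i hi => ?_
  have hi1 : i + 1 < lam := by
    rw [← Order.succ_eq_add_one]
    exact hlam.1.succ_lt hi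
  obtain ⟨-, η, -, hη1, hη2⟩ := he i (hi.trans hlτ)
  refine hη1.mono fun a ha _ => hf2 a ha.1 i hi ?_
  obtain ⟨b, hb1, hb2, hb3⟩ := ha.2
  exact ⟨b, hb1, hb2, hb3.trans_lt (hη2 (i + 1) (lt_add_one i) (hi1.trans hlτ))⟩

theorem ma (h1 : StCP) (h2 : StPS) (h3 : StKEY) (h4 : StJB) (h5 : StPB) : StMA := by
  intro μ τ A hn hμ hτ hne hA hAl hat
  obtain ⟨C, hC'⟩ := h1 μ τ hn
  have hC : Pos μ A C := ⟨hC'.dp, hC'.mono, fun a ha => hC'.otp a (hAl a ha),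
    fun a ha => hC'.unb a (hAl a ha)⟩
  have hlim : IsSuccLimit τ := isSuccLimit_of_cof hτ
  let P : Ordinal.{0} → Ordinal.{0} → Ordinal.{0} → Prop := fun ξ η γ =>
    ¬ Stat {a | a ∈ A ∧ ¬ ∃ b, C a γ b ∧ ξ ≤ b ∧ b ≤ η} τ
  have hP : ∀ ξ η γ, P ξ η γ → ξ ≤ η := by
    intro ξ η γ h
    by_contra h6
    refine h (hat.1.mono fun a ha _ => ⟨ha, ?_⟩)
    rintro ⟨b, -, h7, h8⟩
    exact h6 (h7.trans h8)
  obtain ⟨γ, hγ, e, hed, he⟩ := h3 τ μ P hn.2.1 hτ hn.1 (dp_P' hA hC.dp τ)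
    (fun ξ ξ' η η' γ γ' h6 h7 h8 h9 h10 => h9 (h10.mono fun a ha _ => ⟨ha.1, fun h11 => ha.2 (by
      obtain ⟨b, hb1, hb2, hb3⟩ := h11
      exact ⟨b, hC.mono a _ _ b h8 hb1, h6.trans hb2, hb3.trans h7⟩)⟩))
    (fun ξ hξ => by
      obtain ⟨η, hη, γ, hγ, hs⟩ := h2 τ μ A C hτ hμ hne hat.1 hC ξ hξ
      refine ⟨η, hη, γ, hγ, fun h6 => ?_⟩
      -- the set of the `a` with the property is definable, so it does not split `A`
      have hd : DPs {a | ∃ b, C a γ b ∧ ξ ≤ b ∧ b ≤ η} := by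
        have h7 : DP (fun v => ∃ b, C (v 3).rank (v 2).rank b ∧ (v 0).rank ≤ b ∧
            b ≤ (v 1).rank) := dp_interval hC.dp 3 2 0 1
        have h8 := dp_subst_at (Q := fun x v => ∃ b, C (v 2).rank (v 1).rank b ∧ x ≤ b ∧
            b ≤ (v 0).rank) h7 ξ
        have h9 := dp_subst_at (Q := fun x v => ∃ b, C (v 1).rank (v 0).rank b ∧ ξ ≤ b ∧
            b ≤ x) h8 η
        exact dp_subst_at (Q := fun x v => ∃ b, C (v 0).rank x b ∧ ξ ≤ b ∧ b ≤ η) h9 γ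
      refine hat.2 (ordSet τ {a | ∃ b, C a γ b ∧ ξ ≤ b ∧ b ≤ η}) (od_ordSet hd τ)
        (ordSet_sub _ _) ⟨hs.mono fun a ha hat' => ⟨ha.1, mem_st_ordSet.2 ⟨hat', ha.2⟩⟩,
          h6.mono fun a ha _ => ⟨ha.1, fun h7 => ha.2 (mem_st_ordSet.1 h7).2⟩⟩)
  refine ⟨γ, hγ, fun lam hlam hγl hlμ => ?_⟩
  by_contra hcof
  have hlτ : lam < τ := hlμ.trans_lt hn.1
  have hinc : ∀ i j, i < j → j ≤ lam → e i < e j := fun i j hij hj =>
    e_lt (P := P) (γ := γ) (fun ξ η => hP ξ η γ) he hij (hj.trans_lt hlτ)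
  have hf : ∀ a, ∃ s < lam, a ∈ A → ∀ i < lam, (∃ b, C a γ b ∧ e i ≤ b ∧ b < e (i + 1)) →
      i ≤ s := by
    intro a
    by_cases ha : a ∈ A
    · have hK : DPs {b | C a γ b} := by
        have h6 : DP (fun v => C (v 0).rank γ (v 1).rank) :=
          dp_subst_at (Q := fun x v => C (v 0).rank x (v 1).rank)
            (hC.dp.rename (fun n => if n = 0 then 1 else if n = 1 then 0 else 2)) γ
        exact dp_subst_at (Q := fun x v => C x γ (v 0).rank) h6 a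
      obtain ⟨s, hs, hs'⟩ := h4 lam γ e {b | C a γ b} hlam hγl hed hinc hK (hC.otp a ha γ hγ)
      exact ⟨s, hs, fun _ => hs'⟩
    · exact ⟨0, pos_iff_ne_zero.2 (Ordinal.isSuccLimit_iff.1 hlam.1).1,
        fun h => absurd h ha⟩
  choose f hf1 hf2 using hf
  obtain ⟨s, hs, hs'⟩ := h5 τ lam A f hτ hlam.1 hcof hat.1 (fun a _ _ => hf1 a)
  have hi : s + 1 < lam := by
    rw [← Order.succ_eq_add_one]
    exact hlam.1.succ_lt hs
  have hi1 : s + 1 + 1 < lam := by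
    rw [← Order.succ_eq_add_one (s + 1)]
    exact hlam.1.succ_lt hi
  obtain ⟨-, η, -, hη1, hη2⟩ := he (s + 1) (hi.trans hlτ)
  refine hη1 (hs'.mono fun a ha _ => ⟨ha.1, ?_⟩)
  rintro ⟨b, hb1, hb2, hb3⟩
  have h6 := hf2 a ha.1 (s + 1) hi ⟨b, hb1, hb2, hb3.trans_lt (hη2 (s + 1 + 1)
    (lt_add_one _) (hi1.trans hlτ))⟩
  exact absurd ((lt_add_one s).trans_le (h6.trans ha.2)) (lt_irrefl s)

end Pool.Agent.Helper73.HV
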