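import Pool.Agent.Helper73.HV.St
import Pool.Agent.Helper73.HM.Fin

/-! # HV module JB -/

namespace Pool.Agent.Helper73.HV

open Ordinal Cardinal ZFSet Order Pool.Agent.Helper73.HODC Pool.Agent.Helper73.HE
open Pool.Agent.Helper73.HM Pool.Agent.Helper73.HU

/-- values of a definable function at successors -/
theorem dp_at_succ {e : Ordinal.{0} → Ordinal.{0}}
    (he : DP (fun v => e (v 0).rank = (v 1).rank)) (i j : ℕ) :
    DP (fun v => e ((v i).rank + 1) = (v j).rank) := by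
  have h1 : DP (fun v => ∃ s : Ordinal.{0}, ((v i).rank < s ∧ ∀ t, t < s → ¬ (v i).rank < t) ∧
      e s = (v j).rank) := by
    refine DP.exO (Q := fun s v => ((v i).rank < s ∧ ∀ t, t < s → ¬ (v i).rank < t) ∧
      e s = (v j).rank) ?_
    refine ((DP.rank_lt (i + 1) 0).and ?_).and ?_
    · refine DP.allO (Q := fun t v => t < (v 0).rank → ¬ (v (i + 1)).rank < t) ?_
      exact (DP.rank_lt 0 1).imp (DP.rank_lt (i + 2) 0).not
    · exact he.rename (fun n => if n = 0 then 0 else j + 1)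
  refine h1.congr fun v => ?_
  constructor
  · intro h
    exact ⟨(v i).rank + 1, ⟨lt_add_one _, fun t ht => not_lt.2 (lt_add_one_iff.1 ht)⟩, h⟩
  · rintro ⟨s, ⟨h4, h5⟩, h6⟩
    have : s = (v i).rank + 1 := by
      refine le_antisymm ?_ (add_one_le_iff.2 h4)
      by_contra h7
      exact h5 _ (not_le.1 h7) (lt_add_one _)
    rw [← this]
    exact h6

/-- the intervals of `e` which contain an element of `K` -/
theorem dps_meet {e : Ordinal.{0} → Ordinal.{0}} {K : Set Ordinal.{0}}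
    (he : DP (fun v => e (v 0).rank = (v 1).rank)) (hK : DPs K) (lam : Ordinal.{0}) :
    DPs {i | i < lam ∧ ∃ b ∈ K, e i ≤ b ∧ b < e (i + 1)} := by
  refine (DP.rank_lt_ord 0 lam).and ?_
  have h1 : DP (fun v => ∃ b : Ordinal.{0}, b ∈ K ∧ (∃ x : Ordinal.{0}, e (v 0).rank = x ∧
      x ≤ b) ∧ ∃ y : Ordinal.{0}, e ((v 0).rank + 1) = y ∧ b < y) := by
    refine DP.exO (Q := fun b v => b ∈ K ∧ (∃ x : Ordinal.{0}, e (v 0).rank = x ∧
      x ≤ b) ∧ ∃ y : Ordinal.{0}, e ((v 0).rank + 1) = y ∧ b < y) ?_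
    refine (DPs.at hK 0).and (DP.and ?_ ?_)
    · refine DP.exO (Q := fun x v => e (v 1).rank = x ∧ x ≤ (v 0).rank) ?_
      exact (he.rename (fun n => if n = 0 then 2 else 0)).and (DP.rank_le 0 1)
    · refine DP.exO (Q := fun y v => e ((v 1).rank + 1) = y ∧ (v 0).rank < y) ?_
      exact (dp_at_succ he 2 0).and (DP.rank_lt 1 0)
  refine h1.congr fun v => ?_
  constructor
  · rintro ⟨b, h2, h3, h4⟩
    exact ⟨b, h2, ⟨_, rfl, h3⟩, ⟨_, rfl, h4⟩⟩
  · rintro ⟨b, h2, ⟨x, rfl, h3⟩, ⟨y, rfl, h4⟩⟩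
    exact ⟨b, h2, h3, h4⟩

theorem jb (h : StBD) : StJB := by
  intro lam γ e K hlam hγ he hinc hK hotp
  obtain ⟨s, hs, hs'⟩ := h lam {i | i < lam ∧ ∃ b ∈ K, e i ≤ b ∧ b < e (i + 1)} hlam
    (dps_meet he hK lam) (fun i hi => hi.1) (by
      obtain ⟨ζ, hζ, g, hg1, hg2⟩ := hotp
      have hex : ∀ i, ∃ b, (∃ b ∈ K, e i ≤ b ∧ b < e (i + 1)) →
          b ∈ K ∧ e i ≤ b ∧ b < e (i + 1) := by
        intro i
        by_cases hi : ∃ b ∈ K, e i ≤ b ∧ b < e (i + 1)
        · obtain ⟨b, hb, hb', hb''⟩ := hi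
          exact ⟨b, fun _ => ⟨hb, hb', hb''⟩⟩
        · exact ⟨0, fun h => absurd h hi⟩
      choose b hb using hex
      refine ⟨ζ, ?_, fun i => g (b i), fun i hi => hg1 _ (hb i hi.2).1, ?_⟩
      · have h1 : γ + 1 < lam := by
          rw [← Order.succ_eq_add_one]
          exact hlam.1.succ_lt hγ
        refine lt_of_le_of_lt ?_ h1
        rw [← Order.lt_succ_iff, Order.succ_eq_add_one, add_assoc]
        exact hζ.trans_eq (by norm_num)
      · intro i hi j hj hij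
        obtain ⟨h1, h2, h3⟩ := hb i hi.2
        obtain ⟨h4, h5, h6⟩ := hb j hj.2
        refine hg2 _ h1 _ h4 (h3.trans_le (le_trans ?_ h5))
        rcases (add_one_le_iff.2 hij).lt_or_eq with h7 | h7
        · exact (hinc _ _ h7 hj.1.le).le
        · rw [h7])
  exact ⟨s, hs, fun i hi hb => hs' i ⟨hi, hb⟩⟩

end Pool.Agent.Helper73.HV
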