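import Pool.Agent.Helper73.HV.St

/-! # HV module PS -/

namespace Pool.Agent.Helper73.HV

open Ordinal Cardinal ZFSet Order Pool.Agent.Helper73.HODC Pool.Agent.Helper73.HE
open Pool.Agent.Helper73.HM Pool.Agent.Helper73.HU

theorem ps (h1 : StFO) (h2 : StPB) : StPS := by
  intro τ μ S C hτ hμ hne hS hC ξ hξ
  have hlim : IsSuccLimit τ := isSuccLimit_of_cof hτ
  -- the part of `S` above `ξ`
  have hS1 : Stat {a | a ∈ S ∧ a ∈ Set.Ioi ξ} τ := hS.inter_club hτ (club_Ioi hlim hξ)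
  have hex : ∀ a, ∃ γ b, a ∈ S → ξ < a → γ < μ ∧ C a γ b ∧ ξ ≤ b ∧ b < a := by
    intro a
    by_cases h : a ∈ S ∧ ξ < a
    · obtain ⟨γ, hγ, b, hb1, hb2, hb3⟩ := hC.unb a h.1 ξ h.2
      exact ⟨γ, b, fun _ _ => ⟨hγ, hb1, hb2, hb3⟩⟩
    · exact ⟨0, 0, fun h3 h4 => absurd ⟨h3, h4⟩ h⟩
  choose g r hgr using hex
  obtain ⟨η, hη, hS2⟩ := h1 τ _ r hτ hS1 fun a ha _ _ => (hgr a ha.1 ha.2).2.2.2
  obtain ⟨γ, hγ, hS3⟩ := h2 τ μ _ g hτ hμ hne hS2 fun a ha _ => (hgr a ha.1.1 ha.1.2).1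
  refine ⟨η, hη, γ, hγ, hS3.mono fun a ha _ => ⟨ha.1.1.1, r a, ?_, ?_, ha.1.2⟩⟩
  · exact hC.mono a _ _ _ ha.2 (hgr a ha.1.1.1 ha.1.1.2).2.1
  · exact (hgr a ha.1.1.1 ha.1.1.2).2.2.1

end Pool.Agent.Helper73.HV
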