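import Pool.Agent.Helper73.HV.St
import Pool.Agent.Helper73.HU.Fin

/-! # HV: assembly -/

namespace Pool.Agent.Helper73.HV

open Ordinal Cardinal ZFSet Order Pool.Agent.Helper73.HODC Pool.Agent.Helper73.HE
open Pool.Agent.Helper73.HM Pool.Agent.Helper73.HU

theorem otpLt_mono {S : Set Ordinal.{0}} {τ τ' : Ordinal.{0}} (h : OtpLt S τ) (h' : τ ≤ τ') :
    OtpLt S τ' := by
  obtain ⟨ζ, hζ, h⟩ := h
  exact ⟨ζ, hζ.trans_le h', h⟩

/-- the fine ultrafilter of an atom -/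
theorem exists_fine (hLE : StLE) (hSD : StSD) (hEXG : StEXG) (hUU : StUU) (hRX : StRX)
    (hFN : StFN) {μ τ δ : Ordinal.{0}} {ν : Cardinal.{0}} {A : Set Ordinal.{0}}
    (hn : HODNext μ τ) (hτ : ℵ₀ < τ.cof) (hν : ℵ₀ ≤ ν)
    (hδ : ∀ ζ, δ ≤ ζ → ζ ≤ μ → HODReg ζ → ζ.cof ≠ ν) (hA : DPs A) (hAl : ∀ a ∈ A, a < τ)
    (hAc : ∀ a ∈ A, a.cof = ν) (hat : Atom τ A) : ∃ W, HODFine τ.cof δ τ W := by
  have hx : ∀ a ∈ A, ∃ x, LeastOD τ (SmallCof δ a) x := by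
    intro a ha
    have hlim : IsSuccLimit a :=
      Ordinal.one_lt_cof_iff.1 (by rw [hAc a ha]; exact Cardinal.one_lt_aleph0.trans_le hν)
    obtain ⟨γ, hγa, hγ, hγc, x, hx1, hx2, hx3, hx4, hx5⟩ := hEXG τ a hlim (hAl a ha)
    have h1 : γ ≤ μ := by
      by_contra h
      exact hn.2.2 γ (not_le.1 h) (hγa.trans_lt (hAl a ha)) hγ
    have h2 : γ < δ := by
      by_contra h
      exact hδ γ (not_lt.1 h) h1 hγ (hγc.trans (hAc a ha))
    exact hLE.2 τ _ ⟨x, hx1, hx2, hx3, hx4, otpLt_mono hx5 (add_one_le_iff.2 h2)⟩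
  let C : Ordinal.{0} → Ordinal.{0} → Prop := fun a b =>
    ∃ x, LeastOD τ (SmallCof δ a) x ∧ b ∈ st x
  have hC : DP (fun v => C (v 0).rank (v 1).rank) := hSD δ τ
  have hCx : ∀ a ∈ A, ∃ x, SmallCof δ a x ∧ ∀ b, C a b ↔ b ∈ st x := by
    intro a ha
    obtain ⟨x, hx⟩ := hx a ha
    refine ⟨x, hx.1.2.2, fun b => ⟨?_, fun h => ⟨x, hx, h⟩⟩⟩
    rintro ⟨y, hy, hb⟩
    rwa [hLE.1 _ _ _ _ hy hx] at hb
  obtain ⟨R, hR, hR1, hR2⟩ := hRX δ τ A C hτ hn.2.1 hA hAl hat hC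
    (fun a ha β hβ => by
      obtain ⟨x, hx, hb⟩ := hCx a ha
      obtain ⟨b, hb1, hb2, hb3⟩ := hx.2.1 β hβ
      exact ⟨b, (hb b).2 hb1, hb2.le, hb3⟩)
    (fun a ha => by
      obtain ⟨x, hx, hb⟩ := hCx a ha
      have : {b | C a b} = st x := Set.ext hb
      rw [this]
      exact hx.2.2)
  have hU := hUU τ A hτ hA hAl hat
  have hmem : ∀ T : Set Ordinal.{0}, DPs T → ¬ Stat {a | a ∈ A ∧ a ∉ T} τ →
      ordSet τ T ∈ UA τ A := by
    intro T hT h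
    rw [UA, ZFSet.mem_sep]
    refine ⟨mem_hodPow.2 ⟨ordSet_sub _ _, od_ordSet hT τ⟩, fun h' => h (h'.mono ?_)⟩
    intro a ha hac
    exact ⟨ha.1, fun h1 => ha.2 (mem_st_ordSet.2 ⟨hac, h1⟩)⟩
  have hRi : ∀ i < τ, ordSet τ {a | R a i} ∈ UA τ A := by
    intro i hi
    refine hmem _ ?_ (hR2 i hi)
    have h6 : DP (fun v => R (v 1).rank (v 0).rank) :=
      hR.rename (fun n => if n = 0 then 1 else 0)
    exact dp_subst_at (Q := fun x v => R (v 0).rank x) h6 i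
  refine hFN δ τ τ.cof (UA τ A) R hU hτ.le hR ⟨ordSet τ A, hmem A hA (fun h => ?_), fun a ha =>
      hR1 a (mem_st_ordSet.1 ha).2⟩ hRi
  obtain ⟨a, ha, -, -⟩ := h _ (club_univ (isSuccLimit_of_cof hτ))
  exact ha.2 ha.1

/-- a regular cardinal between two bounds below a singular cardinal -/
theorem exists_reg {σ : Cardinal.{0}} (hσ : ℵ₀ ≤ σ) (hs : ¬ σ.IsRegular) {γ : Ordinal.{0}}
    {c : Cardinal.{0}} (hγ : γ < σ.ord) (hc : c < σ) :
    ∃ d : Cardinal.{0}, d.IsRegular ∧ γ < d.ord ∧ c < d ∧ d < σ := by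
  have h1 : γ.card < σ := Cardinal.lt_ord.1 hγ
  have hω : ℵ₀ < σ := lt_of_le_of_ne hσ (fun h => hs (h ▸ Cardinal.isRegular_aleph0))
  set m : Cardinal.{0} := max ℵ₀ (max γ.card c) with hm
  have h2 : m < σ := max_lt hω (max_lt h1 hc)
  have h3 : ℵ₀ ≤ m := le_max_left _ _
  have h4 : (succ m).IsRegular := Cardinal.isRegular_succ h3
  refine ⟨succ m, h4, ?_, ?_, ?_⟩
  · exact Cardinal.lt_ord.2 (lt_of_le_of_lt ((le_max_left _ _).trans (le_max_right _ _))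
      (Order.lt_succ m))
  · exact lt_of_le_of_lt ((le_max_right _ _).trans (le_max_right _ _)) (Order.lt_succ m)
  · refine lt_of_le_of_ne (Order.succ_le_of_lt h2) (fun h => hs (h ▸ h4))

theorem local_of (hCV : StCVO) (hNA : StNAO) (hUU : StUU) (hSD : StSD) (hLE : StLE)
    (hEXG : StEXG) (hRX : StRX) (hFN : StFN) (hNU : StNU) (hM : StM) (hMA : StMA) :
    StLocal := by
  intro κ κ₀ hκ hkk hα μ τ hμ hn
  set θ : Cardinal.{0} := (2 : Cardinal.{0}) ^ κ₀ with hθ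
  have hμl : IsSuccLimit μ := by
    rcases hμ with h | ⟨σ, hσ, rfl⟩
    · exact h.1
    · exact Cardinal.isSuccLimit_ord hσ
  by_cases hω : τ.cof = ℵ₀
  · exact Or.inl hω
  right
  have hτ : ℵ₀ < τ.cof := lt_of_le_of_ne
    (Ordinal.aleph0_le_cof_iff.2 (Ordinal.one_lt_cof_iff.2 hn.2.1.1)) (Ne.symm hω)
  by_cases hle : τ.cof ≤ θ
  · -- small cofinality
    left
    refine ⟨?_, hle⟩
    by_contra hlt
    rw [not_le] at hlt
    obtain ⟨γ, hγ, h⟩ := hM μ τ hn hμl hτ hlt.ne'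
    by_cases hr : HODReg μ
    · exact absurd (h μ hr hγ le_rfl) (not_le.2 hlt)
    · obtain ⟨σ, hσ, rfl⟩ := hμ.resolve_left hr
      have hns : ¬ σ.IsRegular := fun h => hr (hodReg_of_regular h)
      have hc : τ.cof < σ := hlt.trans_le (Ordinal.cof_ord_le σ)
      obtain ⟨d, hd, h1, h2, h3⟩ := exists_reg hσ hns hγ hc
      have h4 := h d.ord (hodReg_of_regular hd) h1 (Cardinal.ord_le_ord.2 h3.le)
      rw [hd.cof_ord] at h4
      exact absurd h4 (not_le.2 h2)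
  · -- large cofinality
    right
    rw [not_le] at hle
    have hatom : ∀ ν : Cardinal.{0}, ν.IsRegular → ν < κ →
        ∃ A, DPs A ∧ (∀ a ∈ A, a.cof = ν ∧ a < τ) ∧ Atom τ A := by
      intro ν hν hνκ
      have hντ : ν < τ.cof := hνκ.trans_le (hkk.trans ((Cardinal.cantor κ₀).trans hle).le)
      exact exists_atom hCV hNA hκ hkk hα hle (hNU ν hν).1 ((hNU ν hν).2 τ hντ)
        (fun a ha => lt_of_eq_of_lt ha hνκ)
    have hcof : μ.cof = τ.cof := by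
      by_contra hne
      obtain ⟨A, hA, hA1, hA2⟩ := hatom ℵ₀ Cardinal.isRegular_aleph0 hκ.unc
      obtain ⟨γ, hγ, h⟩ := hMA μ τ A hn hμl hτ hne hA (fun a ha => ⟨
        Ordinal.one_lt_cof_iff.1 (by rw [(hA1 a ha).1]; exact Cardinal.one_lt_aleph0),
        (hA1 a ha).2⟩) hA2
      by_cases hr : HODReg μ
      · exact hne (h μ hr hγ le_rfl)
      · obtain ⟨σ, hσ, rfl⟩ := hμ.resolve_left hr
        have hns : ¬ σ.IsRegular := fun h => hr (hodReg_of_regular h)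
        have hω : ℵ₀ < σ := lt_of_le_of_ne hσ (fun h => hns (h ▸ Cardinal.isRegular_aleph0))
        obtain ⟨d, hd, h1, h2, h3⟩ := exists_reg hσ hns hγ hω
        obtain ⟨d', hd', h1', h2', h3'⟩ := exists_reg hσ hns hγ h3
        have h4 := h d.ord (hodReg_of_regular hd) h1 (Cardinal.ord_le_ord.2 h3.le)
        have h5 := h d'.ord (hodReg_of_regular hd') h1' (Cardinal.ord_le_ord.2 h3'.le)
        rw [hd.cof_ord] at h4
        rw [hd'.cof_ord] at h5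
        rw [h4, h5] at h2'
        exact lt_irrefl _ h2'
    refine ⟨hle, hcof.symm, fun ν hν hνκ δ hδμ hδ => ?_⟩
    obtain ⟨A, hA, hA1, hA2⟩ := hatom ν hν hνκ
    rw [hcof]
    exact exists_fine hLE hSD hEXG hUU hRX hFN hn hτ hν.aleph0_le hδ hA
      (fun a ha => (hA1 a ha).2) (fun a ha => (hA1 a ha).1) hA2

theorem main_of (hL : StLocal) (hY : StHY) : StMain := by
  intro κ hκ hH
  have hall : ¬ ∀ α : Ordinal.{0}, IsSuccLimit α → κ.ord ≤ α → α.cof < κ → HODSing α :=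
    fun h => hH (hY κ hκ.reg hκ.unc h)
  push Not at hall
  obtain ⟨α, hα, h3, h5, h6⟩ := hall
  set κ₀ : Cardinal.{0} := succ (max κ α.card) with hκ₀
  have h4 : α ≤ κ₀.ord := by
    have h7 : α.card < κ₀ := lt_of_le_of_lt (le_max_right _ _) (Order.lt_succ _)
    exact (Cardinal.lt_ord.2 h7).le
  have hkk : κ ≤ κ₀ := (le_max_left _ _).trans (Order.le_succ _)
  exact ⟨_, hL κ κ₀ hκ hkk ⟨α, hα, h3, h4, h5, h6⟩⟩

end Pool.Agent.Helper73.HV
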