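import Pool.Agent.Helper73.HU.Top
import Pool.Agent.Helper73.HV.Fin
import Pool.Agent.Helper73.HV.PS
import Pool.Agent.Helper73.HV.JB
import Pool.Agent.Helper73.HV.MM
import Pool.Agent.Helper76.HV.EXG
import Pool.Agent.Helper76.HV.CP
import Pool.Agent.Helper76.HV.KEY
import Pool.Agent.Helper17.HV.PB
import Pool.Agent.Helper38.HV.CU
import Pool.Agent.Helper22.HV.RX
import Pool.Agent.Helper4.HV.FN
import Pool.Agent.Helper68.HV.NU

/-! # HV: the theorem, all modules assembled -/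

namespace Pool.Agent.Helper73.HV

open Pool.Agent.Helper73.HM Pool.Agent.Helper73.HU

theorem main_local : StLocal := by
  have hRefl : StRefl := refl_of Helper32.HM.ra Helper38.HM.rc Helper11.HM.RS.rs
  have hTC : StTC := Helper77.HM.TC.tc
  have hTS : StTS := Helper12.HM.ts hTC
  have hTD : StTD := td_of hTC hTS
  have hOZ : StOZ := Helper30.HM.oz hTD
  have hHP : StHP := hp_of hTD hOZ
  have hLE : StLE := Helper14.HM.le hTC hOZ
  have hLS : StLS := Helper62.HM.LS.ls hTD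
  have hLD : StLD := ld_of hHP hLS
  have hNE : StNE := ne hLE
  have hND : StND := nd re hLD
  have hUD : StUD := ud_of hHP
  have hNM : StNMap := Helper68.HU.nmap
  have hTR : StTR := Helper68.HU.tr
  have hRF : StRF := Helper68.HU.rf hRefl hNM hTR
  have hFO : StFO := Helper68.HU.fo hNM hTR
  have hCVO : StCVO := cvo hRF Helper66.HM.dj
  have hNSO : StNSO := nso hLE hNE hND
  have hNAO : StNAO := nao hLE hNE hND hNSO
  have hEB : StEB := Helper31.HU.EB.eb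
  have hWN : StWN := Helper62.HU.WN.wn hFO
  have hKEY : StKEY := Helper76.HV.key hEB
  have hPB : StPB := Helper17.HV.pb hNM hTR
  have hEXG : StEXG := Helper76.HV.exg
  have hCP : StCP := Helper76.HV.cp hEXG hLE hLD
  have hPS : StPS := ps hFO hPB
  have hJB : StJB := jb (Helper8.HU.bd hEB)
  have hM : StM := mthm hCP hPS hKEY hJB (Helper38.HVCU.cu hNM hTR)
  have hMA : StMA := ma hCP hPS hKEY hJB hPB
  exact local_of hCVO hNAO (Helper48.HU.UU.uu hUD) (Helper63.HU.sd hLD) hLE hEXG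
    (Helper22.HV.RX.rx hWN hKEY) (Helper4.HV.FN.thm_fn hHP) (Helper68.HV.nu Helper14.HM.cf hNM)
    hM hMA

theorem main : StMain := main_of main_local Helper96.HM.hy

open Ordinal Cardinal ZFSet Order Pool.Agent.Helper73.HODC in
/-- the dichotomy -/
theorem main_dich (κ : Cardinal.{0}) (hκ : StronglyCompact κ) :
    (HODHypothesis ∧
      ∀ α : Ordinal.{0}, IsSuccLimit α → κ.ord ≤ α → α.cof < κ → HODSing α) ∨
    (¬ HODHypothesis ∧ ∃ θ : Cardinal.{0}, ∀ μ τ : Ordinal.{0},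
      (HODReg μ ∨ ∃ σ : Cardinal.{0}, ℵ₀ ≤ σ ∧ μ = σ.ord) → HODNext μ τ →
        τ.cof = ℵ₀ ∨
        (μ.cof ≤ τ.cof ∧ τ.cof ≤ θ) ∨
        (θ < τ.cof ∧ τ.cof = μ.cof ∧ (∃ W, HODFine μ.cof μ τ W) ∧
          ∀ ν : Cardinal.{0}, ν.IsRegular → ν < κ → ∀ δ ≤ μ,
            (∀ ζ, δ ≤ ζ → ζ ≤ μ → HODReg ζ → ζ.cof ≠ ν) → ∃ W, HODFine μ.cof δ τ W)) := by
  rcases HM.main κ hκ with h | ⟨θ, hθ⟩
  · exact Or.inl h
  right
  have hH : ¬ HODHypothesis := by
    intro hH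
    obtain ⟨c, hc, h1, h2⟩ := hH θ
    exact h2 (hθ c hc h1).1
  refine ⟨hH, ?_⟩
  obtain ⟨θ', h⟩ := main κ hκ hH
  refine ⟨max θ' ℵ₀, fun μ τ hμ hn => ?_⟩
  rcases h μ τ hμ hn with h1 | ⟨h1, h2⟩ | ⟨h1, h2, h3⟩
  · exact Or.inl h1
  · exact Or.inr (Or.inl ⟨h1, h2.trans (le_max_left _ _)⟩)
  · by_cases hc : τ.cof = ℵ₀
    · exact Or.inl hc
    by_cases h4 : τ.cof ≤ max θ' ℵ₀
    · exact Or.inr (Or.inl ⟨h2.symm.le, h4⟩)
    · rw [not_le] at h4
      have h5 : ℵ₀ < μ.cof := by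
        rw [← h2]
        exact (le_max_right _ _).trans_lt h4
      refine Or.inr (Or.inr ⟨h4, h2, ?_, h3⟩)
      refine h3 ℵ₀ Cardinal.isRegular_aleph0 hκ.unc μ le_rfl fun ζ h6 h7 _ => ?_
      rw [le_antisymm h7 h6]
      exact h5.ne'

end Pool.Agent.Helper73.HV
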