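import Pool.Agent.Helper19.HV.StC

/-!
# Project HV (MP_bae8ce_ag): module GNR
-/

set_option autoImplicit false

namespace Pool.Agent.Helper19.HV

noncomputable section

open PL

/-- a multilinear function which vanishes on all families of elements of a spanning set is zero -/
private theorem gnr_gen {j : ℕ} {U N : Type} [AddCommGroup U] [Module ℚ U] [AddCommGroup N]
    [Module ℚ N] (S : Set U) (hS : Submodule.span ℚ S = ⊤)
    (A : MultilinearMap ℚ (fun _ : Fin j => U) N)
    (hA : ∀ v : Fin j → U, (∀ i, v i ∈ S) → A v = 0) (v : Fin j → U) : A v = 0 := by
  have key : ∀ t : Finset (Fin j), ∀ v : Fin j → U, (∀ i, i ∉ t → v i ∈ S) → A v = 0 := by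
    intro t
    induction t using Finset.induction_on with
    | empty =>
      intro v hv
      exact hA v (fun i => hv i (Finset.notMem_empty i))
    | insert a t hat ih =>
      intro v hv
      have h1 : ∀ x : U, A (Function.update v a x) = 0 := by
        intro x
        have hx : x ∈ Submodule.span ℚ S := by
          rw [hS]
          exact Submodule.mem_top
        induction hx using Submodule.span_induction with
        | mem x hx =>
          apply ih
          intro i hi
          by_cases hia : i = a
          · subst hia
            rw [Function.update_self]
            exact hx
          · rw [Function.update_of_ne hia]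
            apply hv
            intro h2
            rcases Finset.mem_insert.1 h2 with h3 | h3
            · exact hia h3
            · exact hi h3
        | zero => exact A.map_update_zero v a
        | add x y _ _ hx hy => rw [A.map_update_add, hx, hy, add_zero]
        | smul c x _ hx => rw [A.map_update_smul, hx, smul_zero]
      have h2 := h1 (v a)
      rwa [Function.update_eq_self] at h2
  exact key Finset.univ v (fun i hi => absurd (Finset.mem_univ i) hi)

theorem mGNR : sGNR := by
  intro G N _ _ _ j f g hfg
  apply wext
  intro v
  have h := gnr_gen (Set.range (lg : G → V G)) span_lg
    ((f.compAlternatingMap (pr G j)).toMultilinearMap -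
      (g.compAlternatingMap (pr G j)).toMultilinearMap) ?_ v
  · exact sub_eq_zero.1 h
  · intro w hw
    choose u hu using hw
    have hw' : w = fun i => lg (u i) := funext fun i => (hu i).symm
    rw [hw']
    exact sub_eq_zero.2 (hfg u)

end

end Pool.Agent.Helper19.HV
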