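import Pool.Agent.Helper73.HU.Defs

/-!
# Fine ultrafilters in HOD above a strongly compact cardinal.  Definitions
-/

namespace Pool.Agent.Helper73.HV

open Ordinal Cardinal ZFSet Order Pool.Agent.Helper73.HODC Pool.Agent.Helper73.HM
open Pool.Agent.Helper73.HU

/-! ### The notions of the theorem -/

/-- the set of all subsets of `τ` in HOD of order type less than `δ`; for a cardinal `δ` of HOD
this is `P_δ(τ)` of HOD -/
noncomputable def hodSmall (δ τ : Ordinal.{0}) : ZFSet.{0} :=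
  ZFSet.sep (fun x => OtpLt (st x) δ) (hodPow τ)

/-- `W` is, in HOD, a `ρ`-complete fine ultrafilter on the set `hodSmall δ τ` of all subsets of
`τ` of order type less than `δ` -/
structure HODFine (ρ : Cardinal.{0}) (δ τ : Ordinal.{0}) (W : ZFSet.{0}) : Prop where
  hod : HOD W
  sub : ∀ X ∈ W, X ⊆ hodSmall δ τ
  up : ∀ X ∈ W, ∀ Y, HOD Y → Y ⊆ hodSmall δ τ → X ⊆ Y → Y ∈ W
  ultra : ∀ X, HOD X → X ⊆ hodSmall δ τ → (X ∈ W ↔ hodSmall δ τ \ X ∉ W)
  fine : ∀ i < τ, ZFSet.sep (fun x => i ∈ st x) (hodSmall δ τ) ∈ W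
  complete : ∀ γ < ρ.ord, ∀ F : Ordinal.{0} → ZFSet.{0}, HOD (gr γ F) → (∀ ξ < γ, F ξ ∈ W) →
    ZFSet.sep (fun x => ∀ ξ < γ, x ∈ F ξ) (hodSmall δ τ) ∈ W

/-! ### Auxiliary definitions -/

/-- `C a γ b` says that `b` is in the chosen cofinal subset of `a` and has position at most `γ`
there; the positions are less than `μ` -/
structure Pos (μ : Ordinal.{0}) (X : Set Ordinal.{0})
    (C : Ordinal.{0} → Ordinal.{0} → Ordinal.{0} → Prop) : Prop where
  dp : DP (fun v => C (v 0).rank (v 1).rank (v 2).rank)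
  mono : ∀ a γ γ' b, γ ≤ γ' → C a γ b → C a γ' b
  otp : ∀ a ∈ X, ∀ γ < μ, OtpLt {b | C a γ b} (γ + 2)
  unb : ∀ a ∈ X, ∀ β < a, ∃ γ < μ, ∃ b, C a γ b ∧ β ≤ b ∧ b < a

end Pool.Agent.Helper73.HV
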